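import Pool.Agent.Y246.LG.Stm

/-!
# LG-DEF: deformation of the base family (helper458 for project LG of helper246)
-/

set_option autoImplicit false

namespace Pool.Agent.Y458.LG

open Polynomial Topology Filter
open Pool.Agent.Y246.LG

/-- leading coefficients of the linear factors -/
noncomputable def ca (q c : ℝ) (N : ℕ) (η : ℝ) (j : ℕ) : ℝ :=
  if j = 0 then q else if j = 1 then c else if j < N + 2 then 1 else η

/-- constant coefficients of the linear factors -/
noncomputable def cb (d : ℝ) (N : ℕ) (v η : ℝ) (j : ℕ) : ℝ :=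
  if j = 0 then 1 + v else if j = 1 then (1 + d * v) * (1 + η) else
    if j < N + 2 then 1 + η * ((j : ℝ) - 1) else (j : ℝ) - N - 1

/-- the deformed product -/
noncomputable def GG (q c d : ℝ) (N M : ℕ) (z : ℝ × ℝ) : ℝ[X] :=
  ∏ j ∈ Finset.range M, (C (ca q c N z.1 j) * X + C (cb d N z.2 z.1 j))

/-- all coefficients are continuous -/
def CC (F : ℝ × ℝ → ℝ[X]) : Prop := ∀ k, Continuous (fun z => (F z).coeff k)

theorem CC.mul {F G : ℝ × ℝ → ℝ[X]} (hF : CC F) (hG : CC G) : CC (fun z => F z * G z) := by
  intro k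
  simp only [coeff_mul]
  exact continuous_finsetSum _ (fun x _ => (hF x.1).mul (hG x.2))

theorem CC.sub {F G : ℝ × ℝ → ℝ[X]} (hF : CC F) (hG : CC G) : CC (fun z => F z - G z) := by
  intro k
  simp only [coeff_sub]
  exact (hF k).sub (hG k)

theorem CC.add {F G : ℝ × ℝ → ℝ[X]} (hF : CC F) (hG : CC G) : CC (fun z => F z + G z) := by
  intro k
  simp only [coeff_add]
  exact (hF k).add (hG k)

theorem CC.der {F : ℝ × ℝ → ℝ[X]} (hF : CC F) : CC (fun z => derivative (F z)) := by
  intro k
  simp only [coeff_derivative]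
  exact (hF (k + 1)).mul continuous_const

theorem CC.lg {F : ℝ × ℝ → ℝ[X]} (hF : CC F) : CC (fun z => Lg (F z)) :=
  (hF.der.mul hF.der).sub (hF.mul hF.der.der)

theorem CC.lgi {F : ℝ × ℝ → ℝ[X]} (hF : CC F) (i : ℕ) : CC (fun z => Lg^[i] (F z)) := by
  induction i with
  | zero => exact hF
  | succ i ih =>
    simp only [Function.iterate_succ_apply']
    exact ih.lg

theorem CC.const (p : ℝ[X]) : CC (fun _ => p) := fun _ => continuous_const

theorem CC.c {f : ℝ × ℝ → ℝ} (hf : Continuous f) : CC (fun z => C (f z)) := by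
  intro k
  simp only [coeff_C]
  split_ifs
  · exact hf
  · exact continuous_const

theorem CC.prod {F : ℕ → ℝ × ℝ → ℝ[X]} (M : ℕ) (hF : ∀ j, CC (F j)) :
    CC (fun z => ∏ j ∈ Finset.range M, F j z) := by
  induction M with
  | zero => simpa using CC.const 1
  | succ M ih =>
    simp only [Finset.prod_range_succ]
    exact ih.mul (hF M)

theorem cc_GG (q c d : ℝ) (N M : ℕ) : CC (GG q c d N M) := by
  apply CC.prod
  intro j
  apply CC.add
  · apply CC.mul _ (CC.const X)
    apply CC.c
    unfold ca
    split_ifs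
    · exact continuous_const
    · exact continuous_const
    · exact continuous_const
    · exact continuous_fst
  · apply CC.c
    unfold cb
    split_ifs
    · fun_prop
    · fun_prop
    · fun_prop
    · fun_prop

theorem GG_zero (q c d : ℝ) (N r : ℕ) (v : ℝ) :
    GG q c d N (2 + N + r) (0, v) = C (∏ j ∈ Finset.range r, ((j : ℝ) + 1)) * gv q c d N v := by
  unfold GG gv
  rw [Finset.prod_range_add, Finset.prod_range_add, Finset.prod_range_succ, Finset.prod_range_succ,
    Finset.prod_range_zero]
  have h1 : ∏ x ∈ Finset.range N, (C (ca q c N (0, v).1 (2 + x)) * X +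
      C (cb d N (0, v).2 (0, v).1 (2 + x))) = (X + 1) ^ N := by
    rw [Finset.prod_congr rfl (g := fun _ => (X + 1 : ℝ[X]))]
    · simp
    · intro x hx
      have hx' := Finset.mem_range.1 hx
      have e1 : ca q c N 0 (2 + x) = 1 := by
        unfold ca
        rw [if_neg (by omega), if_neg (by omega), if_pos (by omega)]
      have e2 : cb d N v 0 (2 + x) = 1 := by
        unfold cb
        rw [if_neg (by omega), if_neg (by omega), if_pos (by omega)]
        simp
      simp [e1, e2]
  have h2 : ∏ x ∈ Finset.range r, (C (ca q c N (0, v).1 (2 + N + x)) * X +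
      C (cb d N (0, v).2 (0, v).1 (2 + N + x))) = C (∏ j ∈ Finset.range r, ((j : ℝ) + 1)) := by
    rw [map_prod]
    apply Finset.prod_congr rfl
    intro x _
    have e1 : ca q c N 0 (2 + N + x) = 0 := by
      unfold ca
      rw [if_neg (by omega), if_neg (by omega), if_neg (by omega)]
    have e2 : cb d N v 0 (2 + N + x) = (x : ℝ) + 1 := by
      unfold cb
      rw [if_neg (by omega), if_neg (by omega), if_neg (by omega)]
      push_cast
      ring
    show C (ca q c N 0 (2 + N + x)) * X + C (cb d N v 0 (2 + N + x)) = _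
    rw [e1, e2]
    simp
  rw [h1, h2]
  have e3 : ca q c N (0, v).1 0 = q := by simp [ca]
  have e4 : cb d N (0, v).2 (0, v).1 0 = 1 + v := by simp [cb]
  have e5 : ca q c N (0, v).1 1 = c := by simp [ca]
  have e6 : cb d N (0, v).2 (0, v).1 1 = 1 + d * v := by simp [cb]
  rw [e3, e4, e5, e6]
  ring

theorem GG_alt (hP : S_PROD) {q c d : ℝ} {N : ℕ} (M : ℕ) (hq : 0 < q) (hc : 0 < c) (hd : 0 ≤ d)
    {v η : ℝ} (hv : 0 ≤ v) (h1 : (1 + v) * c ≤ (1 + d * v) * q) (h2 : 1 + d * v < c)
    (hη : 0 < η) (hη2 : η * (N + 2) < 1) : Alt M (GG q c d N M (η, v)) := by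
  have hdv : 0 ≤ d * v := mul_nonneg hd hv
  have hN : (0 : ℝ) ≤ N := Nat.cast_nonneg N
  have hηN : 0 ≤ η * N := mul_nonneg hη.le hN
  have hη3 : η * 2 < 1 := by nlinarith
  apply hP M (ca q c N η) (cb d N v η)
  · intro j _
    constructor
    · unfold ca
      split_ifs
      · exact hq
      · exact hc
      · exact one_pos
      · exact hη
    · unfold cb
      split_ifs with a1 a2 a3
      · linarith
      · have : 0 < 1 + d * v := by linarith
        have : 0 < 1 + η := by linarith
        positivity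
      · have : (2 : ℝ) ≤ j := by
          exact_mod_cast (show 2 ≤ j by omega)
        have : 0 ≤ η * ((j : ℝ) - 1) := mul_nonneg hη.le (by linarith)
        linarith
      · have : (N : ℝ) + 2 ≤ j := by
          exact_mod_cast (show N + 2 ≤ j by omega)
        linarith
  · intro j _
    have cj : ((j + 1 : ℕ) : ℝ) = (j : ℝ) + 1 := by push_cast; ring
    rcases Nat.eq_zero_or_pos j with h0 | h0
    · subst h0
      have e1 : ca q c N η (0 + 1) = c := by simp [ca]
      have e2 : cb d N v η (0 + 1) = (1 + d * v) * (1 + η) := by simp [cb]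
      have e3 : ca q c N η 0 = q := by simp [ca]
      have e4 : cb d N v η 0 = 1 + v := by simp [cb]
      rw [e1, e2, e3, e4]
      have : 0 < (1 + d * v) * η * q := by
        have : 0 < 1 + d * v := by linarith
        positivity
      nlinarith
    rcases Nat.lt_or_ge 1 j with h3 | h3
    · rcases Nat.lt_or_ge (j + 1) (N + 2) with h4 | h4
      · have e1 : ca q c N η (j + 1) = 1 := by
          unfold ca
          rw [if_neg (by omega), if_neg (by omega), if_pos (by omega)]
        have e2 : cb d N v η (j + 1) = 1 + η * (((j + 1 : ℕ) : ℝ) - 1) := by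
          unfold cb
          rw [if_neg (by omega), if_neg (by omega), if_pos (by omega)]
        have e3 : ca q c N η j = 1 := by
          unfold ca
          rw [if_neg (by omega), if_neg (by omega), if_pos (by omega)]
        have e4 : cb d N v η j = 1 + η * ((j : ℝ) - 1) := by
          unfold cb
          rw [if_neg (by omega), if_neg (by omega), if_pos (by omega)]
        rw [e1, e2, e3, e4, cj]
        nlinarith
      · have e1 : ca q c N η (j + 1) = η := by
          unfold ca
          rw [if_neg (by omega), if_neg (by omega), if_neg (by omega)]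
        have e2 : cb d N v η (j + 1) = ((j + 1 : ℕ) : ℝ) - N - 1 := by
          unfold cb
          rw [if_neg (by omega), if_neg (by omega), if_neg (by omega)]
        rcases Nat.lt_or_ge j (N + 2) with h5 | h5
        · have hj : j = N + 1 := by omega
          have e3 : ca q c N η j = 1 := by
            unfold ca
            rw [if_neg (by omega), if_neg (by omega), if_pos (by omega)]
          have e4 : cb d N v η j = 1 + η * ((j : ℝ) - 1) := by
            unfold cb
            rw [if_neg (by omega), if_neg (by omega), if_pos (by omega)]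
          have cj2 : (j : ℝ) = N + 1 := by rw [hj]; push_cast; ring
          rw [e1, e2, e3, e4, cj, cj2]
          have : η * (η * N) ≤ 1 * (η * N) := by
            apply mul_le_mul_of_nonneg_right _ hηN
            linarith
          nlinarith
        · have e3 : ca q c N η j = η := by
            unfold ca
            rw [if_neg (by omega), if_neg (by omega), if_neg (by omega)]
          have e4 : cb d N v η j = (j : ℝ) - N - 1 := by
            unfold cb
            rw [if_neg (by omega), if_neg (by omega), if_neg (by omega)]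
          rw [e1, e2, e3, e4, cj]
          nlinarith
    · have hj : j = 1 := by omega
      subst hj
      have e3 : ca q c N η 1 = c := by simp [ca]
      have e4 : cb d N v η 1 = (1 + d * v) * (1 + η) := by simp [cb]
      rw [e3, e4]
      rcases Nat.lt_or_ge (1 + 1) (N + 2) with h4 | h4
      · have e1 : ca q c N η (1 + 1) = 1 := by
          unfold ca
          rw [if_neg (by omega), if_neg (by omega), if_pos (by omega)]
        have e2 : cb d N v η (1 + 1) = 1 + η := by
          unfold cb
          rw [if_neg (by omega), if_neg (by omega), if_pos (by omega)]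
          push_cast
          ring
        rw [e1, e2]
        nlinarith
      · have hN0 : N = 0 := by omega
        have e1 : ca q c N η (1 + 1) = η := by
          unfold ca
          rw [if_neg (by omega), if_neg (by omega), if_neg (by omega)]
        have e2 : cb d N v η (1 + 1) = 1 := by
          unfold cb
          rw [if_neg (by omega), if_neg (by omega), if_neg (by omega), hN0]
          push_cast
          ring
        rw [e1, e2]
        have h6 : (1 + η) * η < 1 := by nlinarith
        have h7 : (1 + d * v) * ((1 + η) * η) < (1 + d * v) * 1 :=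
          mul_lt_mul_of_pos_left h6 (by linarith)
        nlinarith

theorem GG_deg (q c d : ℝ) (N M : ℕ) (z : ℝ × ℝ) : (GG q c d N M z).natDegree ≤ M := by
  unfold GG
  refine (natDegree_prod_le _ _).trans ?_
  refine (Finset.sum_le_card_nsmul _ _ 1 (fun j _ => natDegree_linear_le)).trans ?_
  simp

theorem t : S_DEF := by
  intro hP q c d N e hq hc hd _ hvc hNF
  obtain ⟨hA, hB, hC⟩ := hNF
  refine ⟨2 + N, fun M hM => ?_⟩
  obtain ⟨r, rfl⟩ := Nat.exists_eq_add_of_le hM
  set κ : ℝ := ∏ j ∈ Finset.range r, ((j : ℝ) + 1) with hκ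
  have hκ0 : 0 < κ := Finset.prod_pos (fun j _ => by positivity)
  have hΦ : ∀ i, Continuous (fun z : ℝ × ℝ => (Lg^[i] (GG q c d N (2 + N + r) z)).coeff 0) :=
    fun i => (cc_GG q c d N (2 + N + r)).lgi i 0
  have hz : ∀ i v, (Lg^[i] (GG q c d N (2 + N + r) (0, v))).coeff 0 =
      κ ^ 2 ^ i * (Lg^[i] (gv q c d N v)).coeff 0 := by
    intro i v
    rw [GG_zero, Lg_iter_smul, coeff_C_mul]
  have hev1 : ∀ᶠ η in 𝓝 (0 : ℝ), ∀ v ∈ Set.Icc (0 : ℝ) 1, ∀ i < e,
      (Lg^[i] (GG q c d N (2 + N + r) (η, v))).coeff 0 ≠ 0 := by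
    apply isCompact_Icc.eventually_forall_of_forall_eventually
    intro v hv
    have : ∀ᶠ z : ℝ × ℝ in 𝓝 (0, v), ∀ i ∈ Finset.range e,
        (Lg^[i] (GG q c d N (2 + N + r) z)).coeff 0 ≠ 0 := by
      rw [Finset.eventually_all]
      intro i hi
      apply (hΦ i).continuousAt.eventually_ne
      rw [hz]
      exact mul_ne_zero (pow_ne_zero _ hκ0.ne') (hA v hv.1 hv.2 i (Finset.mem_range.1 hi))
    filter_upwards [this] with z hz2 i hi
    exact hz2 i (Finset.mem_range.2 hi)
  have hev2 : ∀ᶠ η in 𝓝 (0 : ℝ), (Lg^[e] (GG q c d N (2 + N + r) (η, 0))).coeff 0 < 0 := by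
    have hc1 : Continuous (fun η : ℝ => (Lg^[e] (GG q c d N (2 + N + r) (η, 0))).coeff 0) :=
      (hΦ e).comp (by fun_prop : Continuous (fun η : ℝ => (η, (0 : ℝ))))
    apply hc1.continuousAt.eventually_lt continuousAt_const
    show (Lg^[e] (GG q c d N (2 + N + r) (0, 0))).coeff 0 < 0
    rw [hz]
    exact mul_neg_of_pos_of_neg (pow_pos hκ0 _) hB
  have hev3 : ∀ᶠ η in 𝓝 (0 : ℝ), 0 < (Lg^[e] (GG q c d N (2 + N + r) (η, 1))).coeff 0 := by
    have hc1 : Continuous (fun η : ℝ => (Lg^[e] (GG q c d N (2 + N + r) (η, 1))).coeff 0) :=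
      (hΦ e).comp (by fun_prop : Continuous (fun η : ℝ => (η, (1 : ℝ))))
    apply continuousAt_const.eventually_lt hc1.continuousAt
    show 0 < (Lg^[e] (GG q c d N (2 + N + r) (0, 1))).coeff 0
    rw [hz]
    exact mul_pos (pow_pos hκ0 _) hC
  have hev4 : ∀ᶠ η in 𝓝 (0 : ℝ), η * ((N : ℝ) + 2) < 1 := by
    have hc1 : Continuous (fun η : ℝ => η * ((N : ℝ) + 2)) := by fun_prop
    apply hc1.continuousAt.eventually_lt continuousAt_const
    simp
  have hev5 : ∀ᶠ η in 𝓝[>] (0 : ℝ), η ∈ Set.Ioi (0 : ℝ) := self_mem_nhdsWithin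
  have hev6 : ∀ᶠ η in 𝓝[>] (0 : ℝ), _ :=
    (((hev1.and hev2).and hev3).and hev4).filter_mono nhdsWithin_le_nhds
  obtain ⟨η, ⟨⟨⟨hη1, hη2⟩, hη3⟩, hη4⟩, hη0⟩ := (hev6.and hev5).exists
  have hcv : Continuous (fun v : ℝ => (Lg^[e] (GG q c d N (2 + N + r) (η, v))).coeff 0) :=
    (hΦ e).comp (by fun_prop : Continuous (fun v : ℝ => (η, v)))
  obtain ⟨v, hv, hv0⟩ := intermediate_value_Icc (zero_le_one' ℝ) hcv.continuousOn
    (show (0 : ℝ) ∈ Set.Icc _ _ from ⟨hη2.le, hη3.le⟩)
  refine ⟨GG q c d N (2 + N + r) (η, v), GG_deg q c d N _ _, ?_, ?_, hv0⟩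
  · exact GG_alt hP _ hq hc hd hv.1 (hvc v hv.1 hv.2).1 (hvc v hv.1 hv.2).2 hη0 hη4
  · intro i hi
    exact hη1 v hv i hi

end Pool.Agent.Y458.LG
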